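import Mathlib
import Pool.Agent.Lib.helper22.IM
import Pool.Agent.Lib.helper22.NBb
import Pool.Agent.Lib.helper22.Benois

namespace Pool.Agent.H.MP_56939f_al

open FreeGroup hiding map_mul map_one map_inv
open Pool.Agent.Lib.IMon IM
open Pool.Agent.H.MP_874ce0_al (run run_app run_inv run_idem run_cons)
open scoped Classical

variable {X : Type}

abbrev W (X : Type) := List (((X ⊕ X) ⊕ Bool) × Bool)

def z : W X := [(.inr true, true), (.inr false, true)]

def RR (u v : W X) : Prop :=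
  (∃ a b s t, u = [(.inl (.inl a), s), (.inl (.inr b), t)] ∧ v = [(.inl (.inr b), t), (.inl (.inl a), s)]) ∨
  (∃ j, u = [(.inr j, true), (.inr j, true)] ∧ v = [(.inr j, true)]) ∨ ∃ l, (u = z ++ [l] ∨ u = [l] ++ z) ∧ v = z

def τ : ((X ⊕ X) ⊕ Bool) × Bool → FreeGroup X × FreeGroup X
  | (.inl (.inl a), s) => (mk [(a, s)], 1)
  | (.inl (.inr a), s) => (1, mk [(a, s)])
  | _ => 1

def σ (w : W X) : FreeGroup X × FreeGroup X := (w.map τ).prod

def lf (u : List (X × Bool)) : W X := u.map fun l => (.inl (.inl l.1), l.2)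
def rt (u : List (X × Bool)) : W X := u.map fun l => (.inl (.inr l.1), l.2)

theorem σ_app (u v : W X) : σ (u ++ v) = σ u * σ v := by simp [σ]
theorem σ_cons (l) (v : W X) : σ (l :: v) = τ l * σ v := by simp [σ]
theorem τ_not (l : _ × Bool) : τ (X := X) (l.1, !l.2) = (τ l)⁻¹ := by obtain ⟨(_ | _) | _, _⟩ := l <;> simp [τ, invRev]
theorem σ_inv (u : W X) : σ (invRev u) = (σ u)⁻¹ := by
  induction u with
  | nil => simp [σ]
  | cons l u ih => rw [← List.singleton_append, invRev_append, σ_app, σ_app, ih, mul_inv_rev]; simp [σ, invRev, τ_not]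
theorem σ_rt (u : List (X × Bool)) : σ (rt u) = (1, mk u) := by
  induction u with
  | nil => rfl
  | cons l u ih => exact (σ_cons ..).trans (by rw [← rt, ih]; simp [τ])
theorem σ_len (u : W X) : (σ u).1.norm ≤ u.length ∧ (σ u).2.norm ≤ u.length := by
  induction u with
  | nil => simp [σ]
  | cons l u ih =>
    have : (τ l).1.norm ≤ 1 ∧ (τ l).2.norm ≤ 1 := by obtain ⟨(_ | _) | _, _⟩ := l <;> simp [τ] <;> exact norm_mk_le
    have a := norm_mul_le (τ l).1 (σ u).1
    have b := norm_mul_le (τ l).2 (σ u).2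
    simp only [σ_cons, Prod.fst_mul, Prod.snd_mul, List.length_cons]
    omega

theorem idem_le {M : Type} [IM M] {a : M} (h : a * a = a) : Le a 1 := by
  have : a⁻¹ = a⁻¹ * a⁻¹⁻¹ * (a * a⁻¹) := by rw [inv_inv, mul_assoc, ← mul_assoc a, h, ← mul_assoc]; simpa using (w1 a⁻¹).symm
  have := (this ▸ (le_one a⁻¹).mul (le_one a) : Le a⁻¹ (1 * 1)).inv
  rwa [inv_inv, one_mul, inv_one'] at this

theorem q_e (j b) : q RR [(.inr j, b)] = q (RR (X := X)) [(.inr j, true)] ∧ Le (q (RR (X := X)) [(.inr j, b)]) 1 := by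
  have h := idem_le (a := q (RR (X := X)) [(.inr j, true)]) ((q_app ..).symm.trans (q_rel (.inr (.inl ⟨j, rfl, rfl⟩))))
  have : q RR [(.inr j, b)] = q (RR (X := X)) [(.inr j, true)] := by
    cases b
    · refine (q_inv (R := RR (X := X)) [(.inr j, true)]).trans ?_
      rw [h.eq, mul_one, rev, inv_inv]
    · rfl
  exact ⟨this, this ▸ h⟩

theorem z_mul (m : Inv (RR (X := X))) : q RR z * m = q RR z ∧ m * q RR z = q RR z := by
  obtain ⟨u, rfl⟩ := q_surj m
  induction u with
  | nil => exact ⟨mul_one _, one_mul _⟩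
  | cons l u ih =>
    rw [← List.singleton_append, q_app, ← mul_assoc, mul_assoc _ (q RR u), ih.2, ← q_app z, ← q_app _ z, q_rel (u := z ++ [l]) (.inr (.inr ⟨l, .inl rfl, rfl⟩))]
    exact ⟨ih.1, q_rel (.inr (.inr ⟨l, .inr rfl, rfl⟩))⟩

theorem le_z {m : Inv (RR (X := X))} {a b} (h : Le m (a * q RR z * b)) : m = q RR z := by
  rw [h.eq, (z_mul a).2, (z_mul b).1, (z_mul _).2]

noncomputable def ρ (g : FreeGroup X × FreeGroup X) : Inv (RR (X := X)) := q RR (lf g.1.toWord) * q RR (rt g.2.toWord)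

theorem red_map {Y : Type} {f : X → Y} {u v} (h : Red u v) : Red (u.map fun l => (f l.1, l.2)) (v.map fun l => (f l.1, l.2)) := by
  induction h with
  | refl => exact .refl
  | tail _ k ih => obtain ⟨⟩ := k; exact ih.tail (by simp)

theorem le_ρ (w : W X) : Le (q RR w) (ρ (σ w)) := by
  have r : ∀ (l : X × Bool) (g : FreeGroup X), Red (l :: g.toWord) (mk [l] * g).toWord := fun l g => by
    conv_rhs => rw [← mk_toWord (x := g), mul_mk, toWord_mk]
    exact reduce.red
  induction w with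
  | nil => exact (Le.rfl : Le (q RR []) (q RR ([] ++ [])))
  | cons l w ih =>
    refine (ih.left (q RR [l])).trans ?_
    rw [σ_cons, ρ, ρ, ← mul_assoc]
    obtain ⟨(a | a) | j, b⟩ := l
    · simp only [τ, Prod.fst_mul, Prod.snd_mul, one_mul]
      exact (q_red (R := RR) (red_map (f := fun x => .inl (.inl x)) (r (a, b) (σ w).1))).right _
    · have : ∀ u, q RR [(.inl (.inr a), b)] * q RR (lf u) = q RR (lf u) * q RR [(.inl (.inr a), b)] := fun u => by
        induction u with
        | nil => exact (mul_one _).trans (one_mul _).symm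
        | cons l u ih =>
          change _ * (q RR [_] * q RR (lf u)) = q RR [_] * q RR (lf u) * _
          rw [mul_assoc, ← ih, ← mul_assoc, ← mul_assoc, ← q_app, ← q_app, ← q_app, ← q_app, q_app, q_app]
          exact congrArg (· * _) (q_rel (.inl ⟨_, _, _, _, rfl, rfl⟩)).symm
      rw [this, mul_assoc]
      simp only [τ, Prod.fst_mul, Prod.snd_mul, one_mul]
      exact (q_red (R := RR) (red_map (f := fun x => .inl (.inr x)) (r (a, b) (σ w).2))).left _
    · simpa only [τ, one_mul] using ((q_e j b).2.right _).right _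

def Cn (T : Set (FreeGroup X)) (P : Set (FreeGroup X × FreeGroup X)) (g : FreeGroup X × FreeGroup X) (l : ((X ⊕ X) ⊕ Bool) × Bool) : Prop :=
  ((g * τ l).1 ∈ T ∧ (g * τ l).2 ∈ T) ∧ ∀ j, l.1 = .inr j → (g ∈ P ↔ j = true)

noncomputable def δ (T : Set (FreeGroup X)) (P : Set (FreeGroup X × FreeGroup X)) (g : FreeGroup X × FreeGroup X) (l : ((X ⊕ X) ⊕ Bool) × Bool) :
    Option (FreeGroup X × FreeGroup X) := if Cn T P g l then some (g * τ l) else none

variable {T : Set (FreeGroup X)} {P : Set (FreeGroup X × FreeGroup X)}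

theorem hV (c x c') (h : c.1 ∈ T ∧ c.2 ∈ T) (k : δ T P c x = some c') : (c'.1 ∈ T ∧ c'.2 ∈ T) ∧ δ T P c' (x.1, !x.2) = some c := by
  unfold δ at *
  split_ifs at k with i
  obtain rfl := Option.some.inj k
  refine ⟨i.1, (if_pos ⟨by simpa [τ_not] using h, fun j e => ?_⟩).trans (by simp [τ_not])⟩
  obtain ⟨_, _⟩ := x
  obtain rfl := e
  simpa [τ] using i.2 j rfl

theorem snd {u v : W X} (h : q RR u = q RR v) (c) (k : c.1 ∈ T ∧ c.2 ∈ T) : run (δ T P) c u = run (δ T P) c v := by
  refine sound (V := fun c => c.1 ∈ T ∧ c.2 ∈ T) hV (fun u v h c k => ?_) h c k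
  have zz : ∀ c, run (δ T P) c z = none := fun c => by
    by_cases i : c ∈ P <;> simp [z, run, δ, Cn, τ, i]
  obtain ⟨a, b, s, t, rfl, rfl⟩ | ⟨j, rfl, rfl⟩ | ⟨l, rfl | rfl, rfl⟩ := h
  · by_cases i : c.1 * mk [(a, s)] ∈ T <;> by_cases j : c.2 * mk [(b, t)] ∈ T <;> simp [run, δ, Cn, τ, i, j, k, mul_assoc]
  · cases j <;> by_cases i : c ∈ P <;> simp [run, δ, Cn, τ, i, k]
  · rw [run_app, zz]; rfl
  · simp [run_cons, zz]

theorem run_eq {g g'} {w : W X} (h : run (δ T P) g w = some g') : g' = g * σ w := by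
  induction w generalizing g with
  | nil => exact (Option.some.inj h).symm.trans (mul_one g).symm
  | cons l w ih =>
    rw [run_cons, δ] at h
    split_ifs at h
    · rw [ih h, σ_cons, mul_assoc]
    · cases h

theorem run_ok {g} {w : W X} (h : ∀ p l s, w = p ++ l :: s → Cn T P (g * σ p) l) : run (δ T P) g w = some (g * σ w) := by
  induction w generalizing g with
  | nil => exact congrArg some (mul_one g).symm
  | cons l w ih =>
    rw [run_cons, δ, if_pos (mul_one g ▸ h [] l w rfl :), σ_cons, ← mul_assoc]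
    exact ih fun p a s e => by simpa only [σ_cons, mul_assoc] using h (l :: p) a s (by simp [e])

theorem fin [Finite X] (s : Inv (RR (X := X))) : {t | (∃ u, s * q RR u = t) ∧ ∃ u, t * q RR u = s}.Finite := by
  obtain ⟨u, rfl⟩ := q_surj s
  by_cases h : ∃ p b s p' b' s', u = p ++ (.inr true, b) :: s ∧ u = p' ++ (.inr false, b') :: s' ∧ σ p = σ p'
  · obtain ⟨p, b, s, p', b', s', h, h', e⟩ := h
    have a : ∀ {p j b s}, u = p ++ (.inr j, b) :: s → Le (q RR u * (q RR u)⁻¹) (ρ (σ p) * q RR [(.inr j, true)] * (ρ (σ p))⁻¹) := by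
      rintro p j b s rfl
      rw [List.append_cons, q_app]
      refine (dom_mul ..).trans ?_
      rw [q_app, rev, ← mul_assoc, (q_e j b).1]
      refine .mul (.trans (.left _ (q_e j true).2.inv) ?_) (le_ρ p).inv
      rw [inv_one', mul_one]
      exact (le_ρ p).right _
    have := (a h).inf (e ▸ a h')
    have c := ((le_one (ρ (σ p))⁻¹).left (ρ (σ p) * q RR [(.inr true, true)])).right (q RR [(.inr false, true)] * (ρ (σ p))⁻¹)
    simp only [inv_inv, mul_assoc, mul_one] at this c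
    have d := le_z (a := ρ (σ p)) (b := (ρ (σ p))⁻¹) (by rw [show q RR z = q RR [_] * q RR [_] from rfl]; simpa only [mul_assoc] using this.trans c)
    refine (Set.finite_singleton (q RR z)).subset ?_
    rintro _ ⟨⟨v, rfl⟩, -⟩
    rw [← w1 (q RR u), d, (z_mul _).1, (z_mul _).1]
    rfl
  let T : Set (FreeGroup X) := {g | g.norm ≤ u.length}
  have hT : T.Finite := ((List.finite_length_le _ u.length).image mk).subset fun g h => ⟨_, h, mk_toWord⟩
  have a : run (δ T {g | ∃ p b s, u = p ++ (.inr true, b) :: s ∧ σ p = g}) 1 u = _ := run_ok fun p l s e => ⟨by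
    have := σ_len (p ++ [l])
    simp only [T, σ_app, e, σ_cons, List.length_append, List.length_cons, Set.mem_ofPred_eq, one_mul, show σ (X := X) [] = 1 from rfl, mul_one,
      List.length_nil] at *
    omega, fun j i => by
      obtain ⟨_, b⟩ := l
      obtain rfl := i
      rw [one_mul]
      exact ⟨fun ⟨p', b', s', i, k⟩ => by_contra fun n => h ⟨p', b', s', p, b, s, i, by simpa [n] using e, k⟩, fun k => ⟨p, b, s, k ▸ e, rfl⟩⟩⟩
  refine ((hT.prod hT).image fun g => q RR u * (q RR u)⁻¹ * ρ g).subset fun t ⟨⟨v, i⟩, v', j⟩ => ?_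
  obtain ⟨w, rfl⟩ := q_surj t
  have o : (1 : FreeGroup X × FreeGroup X).1 ∈ T ∧ (1 : FreeGroup X × FreeGroup X).2 ∈ T := by simp [T]
  rw [← snd (show q RR (w ++ v') = _ from j) _ o, run_app, Option.bind_eq_some_iff] at a
  obtain ⟨g, a, -⟩ := a
  have := (run_inv (V := fun c => c.1 ∈ T ∧ c.2 ∈ T) hV o a).1
  refine ⟨g, this, ?_⟩
  rw [run_eq a, one_mul, (le_ρ w).eq, Le.antisymm (i ▸ dom_mul (q RR u) (q RR v) : Le (q RR w * (q RR w)⁻¹) _) (j ▸ dom_mul (q RR w) (q RR v'))]

end Pool.Agent.H.MP_56939f_al
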