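import Mathlib
import Pool.Agent.H.MP_56939f_al.A

namespace Pool.Agent.H.MP_56939f_al

open FreeGroup hiding map_mul map_one map_inv
open Pool.Agent.Lib.IMon IM Encodable
open Pool.Agent.H.MP_874ce0_al (run run_app run_inv run_idem run_cons)
open scoped Classical commutatorElement

section
variable {L : Type} [Primcodable L]

def sf (a : List L) : List (L × List L) := List.rec [] (fun x v ih => (x, v) :: ih) a

def au (Y : List (List L)) : List (ℕ × L × ℕ) × List ℕ := (Y.flatMap fun a =>
  ((sf a).map fun p => (encode (p.1 :: p.2), p.1, encode p.2)) ++ (sf a).head?.toList.map fun p => (0, p.1, encode p.2), [0])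

theorem pr_au : Primrec (au (L := L)) := by
  have a : Primrec (sf (L := L)) := (Primrec.list_rec (h := fun _ (p : L × List L × List (L × List L)) => (p.1, p.2.1) :: p.2.2) .id (.const [])
    (Primrec.list_cons.comp ((Primrec.fst.comp .snd).pair (Primrec.fst.comp (Primrec.snd.comp .snd)))
      (Primrec.snd.comp (Primrec.snd.comp .snd))).to₂)
  exact (Primrec.list_flatMap .id (Primrec.list_append.comp (Primrec.list_map (a.comp .snd) ((Primrec.encode.comp
    (Primrec.list_cons.comp (Primrec.fst.comp .snd) (Primrec.snd.comp .snd))).pair ((Primrec.fst.comp .snd).pair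
      (Primrec.encode.comp (Primrec.snd.comp .snd)))).to₂) (Primrec.list_map (Primrec.optionToList.comp (Primrec.list_head?.comp (a.comp .snd)))
      ((Primrec.const 0).pair ((Primrec.fst.comp .snd).pair (Primrec.encode.comp (Primrec.snd.comp .snd)))).to₂)).to₂).pair (.const _)

theorem acc_au (Y : List (List L)) (v) : v ∈ (NFA.mk (fun s a => {t | (s, a, t) ∈ (au Y).1}) {0} {t | t ∈ (au Y).2}).accepts ↔
    ∃ l : List (List L), (∀ a ∈ l, a ∈ Y) ∧ l.flatten = v := by
  set N := NFA.mk (fun s a => {t | (s, a, t) ∈ (au Y).1}) {0} {t | t ∈ (au Y).2}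
  constructor
  · rintro ⟨p, a, b⟩
    suffices ∀ s : List L, encode s ∈ N.eval v → ∃ l : List (List L), (∀ a ∈ l, a ∈ Y) ∧ l.flatten = v ++ s by
      obtain rfl : p = 0 := by simpa [N, au] using a
      simpa using this [] b
    clear a b
    induction v using List.reverseRecOn with
    | nil => exact fun s e => ⟨[], by simp, (encode_injective (a₂ := []) e).symm⟩
    | append_singleton v x ih =>
      intro s e
      rw [NFA.eval_append_singleton, NFA.mem_stepSet] at e
      obtain ⟨t, i, j⟩ := e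
      obtain ⟨a, k, j⟩ := List.mem_flatMap.1 j
      obtain j | j := List.mem_append.1 j <;> obtain ⟨⟨y, u⟩, j', e⟩ := List.mem_map.1 j <;> simp only [Prod.mk.injEq, encode_inj] at e <;>
        obtain ⟨rfl, rfl, rfl⟩ := e
      · simpa using ih _ i
      · obtain ⟨l, m, n⟩ := ih [] i
        obtain _ | ⟨b, a⟩ := a
        · cases j'
        obtain ⟨⟩ := List.mem_singleton.1 j'
        exact ⟨l ++ [y :: u], List.forall_mem_append.2 ⟨m, by simpa⟩, by simp [n]⟩
  · rintro ⟨l, h, rfl⟩
    refine ⟨0, by simp [N, au], ?_⟩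
    induction l using List.reverseRecOn with
    | nil => rfl
    | append_singleton l a ih =>
      have i := ih fun a k => h a (by simp [k])
      have j := h a (by simp)
      have : ∀ (s : List L) T, sf s ⊆ sf a → encode s ∈ T → 0 ∈ N.evalFrom T s := fun s => by
        induction s with
        | nil => exact fun T _ k => k
        | cons x s ih => exact fun T m k => ih _ (fun _ n => m (.tail _ n)) (N.mem_stepSet.2 ⟨_, k, List.mem_flatMap.2 ⟨a, j,
          List.mem_append_left _ (List.mem_map_of_mem (a := (x, s)) (m (.head _)))⟩⟩)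
      rw [List.flatten_append, List.flatten_singleton, NFA.eval, NFA.evalFrom_append]
      obtain _ | ⟨x, a⟩ := a
      · exact i
      · exact this a _ (fun _ n => .tail _ n) (N.mem_stepSet.2 ⟨_, i, List.mem_flatMap.2 ⟨_, j, List.mem_append_right _ (.head _)⟩⟩)

end

theorem main : ∃ (X : Type) (_ : Finite X) (_ : Primcodable X) (S : ℕ → Prop) (Y : ℕ → List (W X)), ¬ ComputablePred S ∧ Primrec Y ∧ ∀ n,
    (S n → ∃ l : List (W X), (∀ a ∈ l, a ∈ Y n) ∧ q RR l.flatten = q RR z) ∧ (¬ S n → ∃ H : Submonoid (Inv (RR (X := X))),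
      (∀ u, q RR u ∈ H → q RR (invRev u) ∈ H) ∧ (∀ e m : Inv RR, e * e = e → e * m ∈ H → m ∈ H) ∧ (∀ u ∈ Y n, q RR u ∈ H) ∧ q RR z ∉ H) := by
  obtain ⟨X, _, R, x, t, k, s, S, G, _, φ, ζ, hR, hs, hS, -, z0, φR, hw⟩ := Lib.NB.exists_nb
  obtain ⟨J, ⟨e⟩⟩ := Finite.exists_equiv_fin X
  let _ := Primcodable.ofEquiv _ e
  obtain ⟨N, hN⟩ := (hR.image FreeGroup.norm).bddAbove
  let P : Subgroup (FreeGroup X × FreeGroup X) := (φ.comp (.fst ..)).eqLocus (φ.comp (.snd ..))
  have hP : ∀ g, g ∈ P ↔ φ g.1 = φ g.2 := fun _ => Iff.rfl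
  clear_value P
  obtain ⟨L, hL⟩ : ∃ L : List (W X), ∀ a, a ∈ L ↔ a.length ≤ N + 2 ∧ (∀ l ∈ a, l.1.isLeft) ∧ σ a ∈ P :=
    ⟨((List.finite_length_le _ (N + 2)).subset (t := {a | a.length ≤ N + 2 ∧ (∀ l ∈ a, l.1.isLeft) ∧ σ a ∈ P}) fun _ h => h.1).toFinset.toList,
      fun _ => Finset.mem_toList.trans (Set.Finite.mem_toFinset _)⟩
  let y : ℕ → List (X × Bool) := fun n => ((List.range (s n)).map fun _ => (x, true)) ++ (t, true) :: invRev ((List.range (s n)).map fun _ => (x, true))
  let w : ℕ → List (X × Bool) := fun n => (k, true) :: (y n ++ (k, false) :: invRev (y n))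
  have hy : ∀ n, mk (w n) = ⁅of k, of x ^ s n * of t * (of x ^ s n)⁻¹⁆ := fun n => by
    have : ∀ (a : X × Bool) u, mk (a :: u) = mk [a] * mk u := fun _ _ => rfl
    simp only [w, y, List.map_const', List.length_range, ← toWord_of_pow, commutatorElement_def]
    rw [this, ← mul_mk, this (k, false), ← inv_mk, ← mul_mk, this (t, _), ← inv_mk, mk_toWord]
    simp only [mul_assoc]
    rfl
  have py : Primrec y := by
    have := Primrec.list_map (g := fun _ _ => (x, true)) (Primrec.list_range.comp hs) (Primrec.const _).to₂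
    exact Primrec.list_append.comp this (Primrec.list_cons.comp (.const _) (Lib.Benois.pr_inv.comp this))
  have pw : Primrec fun n => rt (w n) := Primrec.list_map
    (Primrec.list_cons.comp (.const _) (Primrec.list_append.comp py (Primrec.list_cons.comp (.const _) (Lib.Benois.pr_inv.comp py))))
    ((Primrec.dom_finite fun l : X × Bool => ((.inl (.inr l.1), l.2) : ((X ⊕ X) ⊕ Bool) × Bool)).comp .snd).to₂
  refine ⟨X, inferInstance, inferInstance, S, fun n => [(.inr true, true)] :: (rt (w n) ++ (.inr false, true) :: invRev (rt (w n))) :: L, hS,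
    Primrec.list_cons.comp (.const _) (Primrec.list_cons.comp (Primrec.list_append.comp pw (Primrec.list_cons.comp (.const _)
      (Lib.Benois.pr_inv.comp pw))) (.const _)), fun n => ⟨fun h => ?_, fun h => ?_⟩⟩
  · let K : Subgroup (FreeGroup X × FreeGroup X) :=
      { carrier := {g | ∃ l : List (W X), (∀ a ∈ l, a ∈ L) ∧ σ l.flatten = g}
        mul_mem' := by
          rintro _ _ ⟨l, a, rfl⟩ ⟨m, b, rfl⟩
          exact ⟨l ++ m, List.forall_mem_append.2 ⟨a, b⟩, by rw [List.flatten_append, σ_app]⟩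
        one_mem' := ⟨[], by simp, rfl⟩
        inv_mem' := by
          rintro _ ⟨l, a, rfl⟩
          refine ⟨(l.map invRev).reverse, fun b i => ?_, by rw [← σ_inv]; simp [invRev, List.map_flatten, List.reverse_flatten]; rfl⟩
          obtain ⟨b, i', rfl⟩ := List.mem_map.1 (List.mem_reverse.1 i)
          have := (hL b).1 (a b i')
          exact (hL _).2 ⟨by simpa using this.1, by simpa [invRev, and_comm] using this.2.1, σ_inv b ▸ inv_mem this.2.2⟩ }
    have d : ∀ g, (g, g) ∈ K := fun g => by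
      induction g using FreeGroup.induction_on with
      | C1 => exact one_mem K
      | of x => exact ⟨[[(.inl (.inl x), true), (.inl (.inr x), true)]], by simp [hL, hP, σ, τ], by simp [σ, τ]; rfl⟩
      | inv_of x h => exact inv_mem h
      | mul x y h k => exact mul_mem h k
    have : (K.comap (.inr ..)).Normal := ⟨fun a i g => by simpa using mul_mem (mul_mem (d g) i) (inv_mem (d g))⟩
    obtain ⟨l, a, b⟩ := inv_mem (Subgroup.normalClosure_le_normal (N := K.comap (.inr ..)) (fun r i => ⟨[rt r.toWord], by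
      simp only [List.mem_singleton, forall_eq, hL, hP, σ_rt, mk_toWord, φR r i, map_one]
      simpa [rt] using show r.toWord.length ≤ N + 2 from (hN ⟨r, i, rfl⟩).trans (Nat.le_add_right N 2), by simpa [mk_toWord] using σ_rt r.toWord⟩) ((hw n).1 h))
    refine ⟨[(.inr true, true)] :: (l ++ [rt (w n) ++ (.inr false, true) :: invRev (rt (w n))]), by
      simpa [or_imp, forall_and] using fun b i => .inr (.inr (a b i)), le_z (a := 1) (b := q RR (invRev (rt (w n)))) ?_⟩
    have := le_ρ (l.flatten ++ rt (w n))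
    rw [σ_app, b, σ_rt, hy, show ∀ g : FreeGroup X, MonoidHom.inr (FreeGroup X) _ g⁻¹ * (1, g) = 1 by simp] at this
    have := (this.left (q RR [(.inr true, true)])).right (q RR ((.inr false, true) :: invRev (rt (w n))))
    simp only [← q_app, List.flatten_cons, List.flatten_append, List.flatten_nil, List.append_nil, List.append_assoc] at this ⊢
    exact this
  let δ := δ (X := X) .univ P
  have fr : ∀ (a : W X) g, (∀ l ∈ a, l.1.isLeft) → run δ g a = some (g * σ a) := fun a g i => run_ok fun p l s e =>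
    ⟨⟨trivial, trivial⟩, fun j k => by simpa [k] using i l (by simp [e])⟩
  have sd : ∀ {u v}, q RR u = q RR v → ∀ g, run δ g u = run δ g v := fun h g => snd h g ⟨trivial, trivial⟩
  have ri : ∀ {g u g'}, run δ g u = some g' → run δ g' (invRev u) = some g := fun h =>
    (run_inv (V := fun c => c.1 ∈ Set.univ ∧ c.2 ∈ Set.univ) hV ⟨trivial, trivial⟩ h).2
  refine ⟨{ carrier := {m | ∀ u, q RR u = m → ∀ g ∈ P, ∃ g' ∈ P, run δ g u = some g'}
            mul_mem' := fun {a b} i j u e g k => ?_
            one_mem' := fun u e g k => ⟨g, k, sd (v := []) e g⟩ }, fun u i v e g k => ?_, fun e m i j v f g k => ?_, ?_, fun i => ?_⟩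
  · obtain ⟨a, rfl⟩ := q_surj a
    obtain ⟨b, rfl⟩ := q_surj b
    obtain ⟨g, k, c⟩ := i a rfl g k
    rw [sd (v := a ++ b) e, run_app, c]
    exact j b rfl g k
  · obtain ⟨_, a, b⟩ := i u rfl 1 (one_mem _)
    have a := mul_mem k (inv_mem (one_mul (σ u) ▸ run_eq b ▸ a :))
    obtain ⟨_, -, b⟩ := i u rfl _ a
    exact ⟨_, a, by rw [sd e]; simpa [run_eq b] using ri b⟩
  · obtain ⟨a, rfl⟩ := q_surj e
    obtain ⟨g', b, c⟩ := j (a ++ invRev a ++ v) (by rw [q_app, q_app, f, q_inv, ← mul_one (_ * _⁻¹), ← (idem_le i).eq]) g k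
    rw [run_app, run_idem (V := fun c => c.1 ∈ Set.univ ∧ c.2 ∈ Set.univ) hV ⟨trivial, trivial⟩] at c
    cases d : run δ g a <;> rw [d] at c
    · cases c
    · exact ⟨g', b, c⟩
  · simp only [List.forall_mem_cons]
    refine ⟨fun u e g k => ⟨g, k, by rw [sd e]; simp [run, δ, MP_56939f_al.δ, Cn, τ, k]⟩, fun u e g k => ⟨g, k, ?_⟩, fun a i u e g k =>
      ⟨_, mul_mem k ((hL a).1 i).2.2, (sd e g).trans (fr a g ((hL a).1 i).2.1)⟩⟩
    have a := fr (rt (w n)) g (by simp [rt])
    have : g * σ (rt (w n)) ∉ P := fun i => by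
      have := mul_mem (inv_mem k) i
      simpa using z0 1 (by simpa [hP, σ_rt, hy, (hw n).2 h, eq_comm] using this)
    rw [sd e, run_app, a, Option.bind_some, run_cons, ← ri a]
    simp [δ, MP_56939f_al.δ, Cn, τ, this]
  · simpa [run, z, δ, MP_56939f_al.δ, Cn, τ, one_mem] using i z rfl 1 (one_mem _)

end Pool.Agent.H.MP_56939f_al
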